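import Pool.Agent.H717.PM.Stm

set_option autoImplicit false

/-! `NATINT`: small natural certificates for the interval problem. -/

namespace Pool.Agent.H314.PM.NatInt

open Pool.Agent.H717.PM

theorem small4 (hS : S_small) (ι : Type) [Fintype ι] [DecidableEq ι] (x : ι → ℝ) :
    ∃ y : ι → ℤ, (∀ j, |y j| ≤ (((Fintype.card ι).factorial * 3 ^ Fintype.card ι : ℕ) : ℤ)) ∧
      (∀ j, 0 ≤ y j ↔ 0 ≤ x j) ∧ (∀ j, y j = 0 ↔ x j = 0) ∧
      (∀ a b c d, y a + y b ≤ y c + y d ↔ x a + x b ≤ x c + x d) ∧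
      (∀ a c, y a ≤ y c ↔ x a ≤ x c) := by
  obtain ⟨y, h1, h2, h3⟩ := hS ι 2 (Fintype.piFinset (fun _ : ι => Finset.Icc (-2 : ℤ) 2))
    (by
      intro f hf j
      rw [Fintype.mem_piFinset] at hf
      have := hf j
      rw [Finset.mem_Icc] at this
      rw [abs_le]
      exact this) x
  have h4 : ∀ a b c d, y a + y b ≤ y c + y d ↔ x a + x b ≤ x c + x d := by
    intro a b c d
    have h5 := h3 (fun j => (if j = a then 1 else 0) + (if j = b then 1 else 0) -
      (if j = c then 1 else 0) - (if j = d then 1 else 0)) (by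
        rw [Fintype.mem_piFinset]
        intro j
        rw [Finset.mem_Icc]
        split_ifs <;> norm_num)
    have e1 : ∑ j, ((if j = a then (1 : ℤ) else 0) + (if j = b then 1 else 0) -
        (if j = c then 1 else 0) - (if j = d then 1 else 0)) * y j = y a + y b - y c - y d := by
      simp only [sub_mul, add_mul, ite_mul, one_mul, zero_mul, Finset.sum_sub_distrib,
        Finset.sum_add_distrib, Finset.sum_ite_eq', Finset.mem_univ, if_true]
    have e2 : ∑ j, ((((if j = a then (1 : ℤ) else 0) + (if j = b then 1 else 0) -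
        (if j = c then 1 else 0) - (if j = d then 1 else 0) : ℤ)) : ℝ) * x j =
        x a + x b - x c - x d := by
      push_cast
      simp only [sub_mul, add_mul, ite_mul, one_mul, zero_mul, Finset.sum_sub_distrib,
        Finset.sum_add_distrib, Finset.sum_ite_eq', Finset.mem_univ, if_true]
    rw [e1, e2] at h5
    have h6 : y a + y b - y c - y d ≤ 0 ↔ x a + x b - x c - x d ≤ 0 := by
      rw [← sign_nonpos_iff, h5, sign_nonpos_iff]
    constructor
    · intro h
      have := h6.1 (by linarith)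
      linarith
    · intro h
      have := h6.2 (by linarith)
      linarith
  refine ⟨y, h1, ?_, ?_, h4, ?_⟩
  · intro j
    rw [← sign_nonneg_iff, h2, sign_nonneg_iff]
  · intro j
    rw [← sign_eq_zero_iff, h2, sign_eq_zero_iff]
  · intro a c
    have := h4 a a c a
    constructor
    · intro h
      have := this.1 (by linarith)
      linarith
    · intro h
      have := this.2 (by linarith)
      linarith

theorem t_natInt (h : S_small) : S_natInt := by
  intro M k D L U hR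
  obtain ⟨hT, hlh, hdis, hadj⟩ := hR
  obtain ⟨n, hn⟩ : ∃ n, n = M.length := ⟨_, rfl⟩
  rw [← hn] at hT hadj ⊢
  obtain ⟨y, hy1, hy2, hy3, hy4, hy5⟩ := small4 h ((Fin n × Fin n) ⊕ (Fin k × Bool))
    (Sum.elim (fun p => D p.1 p.2) (fun p => cond p.2 (U p.1) (L p.1)))
  -- the bound
  have hcard : Fintype.card ((Fin n × Fin n) ⊕ (Fin k × Bool)) ≤ (k + 1) * (n * n + 2) := by
    rw [Fintype.card_sum, Fintype.card_prod, Fintype.card_prod, Fintype.card_fin, Fintype.card_fin,
      Fintype.card_bool]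
    nlinarith [Nat.zero_le (k * (n * n))]
  have hb : ∀ j, (y j).toNat ≤ bnd n (k + 1) := by
    intro j
    have h1 : (Fintype.card ((Fin n × Fin n) ⊕ (Fin k × Bool))).factorial *
        3 ^ Fintype.card ((Fin n × Fin n) ⊕ (Fin k × Bool)) ≤ bnd n (k + 1) :=
      Nat.mul_le_mul (Nat.factorial_le hcard) (Nat.pow_le_pow_right (by norm_num) hcard)
    have h2 := (le_abs_self (y j)).trans (hy1 j)
    rw [Int.toNat_le]
    exact h2.trans (by exact_mod_cast h1)
  -- the data
  obtain ⟨D', hD'⟩ : ∃ D' : ℕ → ℕ → ℕ, D' = fun a b => if h : a < n ∧ b < n then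
      (y (Sum.inl (⟨a, h.1⟩, ⟨b, h.2⟩))).toNat else 0 := ⟨_, rfl⟩
  obtain ⟨L', hL'⟩ : ∃ L' : ℕ → ℕ, L' = fun i => if h : i < k then
      (y (Sum.inr (⟨i, h⟩, false))).toNat else 0 := ⟨_, rfl⟩
  obtain ⟨U', hU'⟩ : ∃ U' : ℕ → ℕ, U' = fun i => if h : i < k then
      (y (Sum.inr (⟨i, h⟩, true))).toNat else 0 := ⟨_, rfl⟩
  have eD : ∀ a b (ha : a < n) (hb : b < n),
      (D' a b : ℤ) = y (Sum.inl (⟨a, ha⟩, ⟨b, hb⟩)) := by
    intro a b ha hb
    rw [hD']
    simp only [ha, hb, and_self, dif_pos]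
    rw [Int.toNat_of_nonneg]
    rw [hy2]
    exact hT.nonneg a ha b hb
  have eL : ∀ i (hi : i < k), (L' i : ℤ) = y (Sum.inr (⟨i, hi⟩, false)) := by
    intro i hi
    rw [hL']
    simp only [hi, dif_pos]
    rw [Int.toNat_of_nonneg]
    rw [hy2]
    exact (hlh i hi).1
  have eU : ∀ i (hi : i < k), (U' i : ℤ) = y (Sum.inr (⟨i, hi⟩, true)) := by
    intro i hi
    rw [hU']
    simp only [hi, dif_pos]
    rw [Int.toNat_of_nonneg]
    rw [hy2]
    exact (hlh i hi).2
  have cL : ∀ i, i < k → ∀ x, x < n → ∀ z, z < n → (L' i ≤ D' x z ↔ L i ≤ D x z) := by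
    intro i hi x hx z hz
    have h1 : y (Sum.inr (⟨i, hi⟩, false)) ≤ y (Sum.inl (⟨x, hx⟩, ⟨z, hz⟩)) ↔ L i ≤ D x z :=
      hy5 _ _
    rw [← eL i hi, ← eD x z hx hz] at h1
    rw [← h1]
    exact Int.ofNat_le.symm
  have cU : ∀ i, i < k → ∀ x, x < n → ∀ z, z < n → (D' x z ≤ U' i ↔ D x z ≤ U i) := by
    intro i hi x hx z hz
    have h1 : y (Sum.inl (⟨x, hx⟩, ⟨z, hz⟩)) ≤ y (Sum.inr (⟨i, hi⟩, true)) ↔ D x z ≤ U i :=
      hy5 _ _
    rw [← eU i hi, ← eD x z hx hz] at h1
    rw [← h1]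
    exact Int.ofNat_le.symm
  have cD : ∀ i, i < k → ∀ j, j < k → (U i < L j → U' i < L' j) := by
    intro i hi j hj hlt
    have h1 : y (Sum.inr (⟨j, hj⟩, false)) ≤ y (Sum.inr (⟨i, hi⟩, true)) ↔ L j ≤ U i :=
      hy5 _ _
    rw [← eU i hi, ← eL j hj] at h1
    have h2 := h1.not.2 (not_le.2 hlt)
    rw [not_le] at h2
    exact_mod_cast h2
  have c4 : ∀ a b c d a' b' c' d' : ℕ, a < n → b < n → c < n → d < n → a' < n → b' < n → c' < n →
      d' < n → D a b + D c d ≤ D a' b' + D c' d' → D' a b + D' c d ≤ D' a' b' + D' c' d' := by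
    intro a b c d a' b' c' d' ha hb hc hd ha' hb' hc' hd' hle
    have h1 := (hy4 (Sum.inl (⟨a, ha⟩, ⟨b, hb⟩)) (Sum.inl (⟨c, hc⟩, ⟨d, hd⟩))
      (Sum.inl (⟨a', ha'⟩, ⟨b', hb'⟩)) (Sum.inl (⟨c', hc'⟩, ⟨d', hd'⟩))).2 hle
    rw [← eD, ← eD, ← eD, ← eD] at h1
    exact_mod_cast h1
  refine ⟨D', L', U', ⟨⟨?_, ?_, ?_, ?_⟩, ?_, ?_, ?_⟩, ?_, ?_⟩
  · intro a ha b hb
    rw [← hn] at ha hb
    have h1 := hT.symm a ha b hb
    have h2 := c4 a b a b b a a b ha hb ha hb hb ha ha hb (by rw [h1])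
    have h3 := c4 b a a b a b a b hb ha ha hb ha hb ha hb (by rw [h1])
    have h4 : D' a b = D' b a := by omega
    show (D' a b : ℝ) = (D' b a : ℝ)
    rw [h4]
  · intro a ha
    rw [← hn] at ha
    have h1 : y (Sum.inl (⟨a, ha⟩, ⟨a, ha⟩)) = 0 := (hy3 _).2 (hT.diag a ha)
    rw [← eD] at h1
    show (D' a a : ℝ) = 0
    exact_mod_cast h1
  · intro a _ b _
    exact Nat.cast_nonneg _
  · intro a ha b hb c hc d hd
    rw [← hn] at ha hb hc hd
    show (D' a b : ℝ) + (D' c d : ℝ) ≤ (D' a c : ℝ) + (D' b d : ℝ) ∨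
      (D' a b : ℝ) + (D' c d : ℝ) ≤ (D' a d : ℝ) + (D' b c : ℝ)
    rcases hT.four a ha b hb c hc d hd with h1 | h1
    · left
      exact_mod_cast c4 a b c d a c b d ha hb hc hd ha hc hb hd h1
    · right
      exact_mod_cast c4 a b c d a d b c ha hb hc hd ha hd hb hc h1
  · intro i _
    exact ⟨Nat.cast_nonneg _, Nat.cast_nonneg _⟩
  · intro i hi j hj hij
    show (U' i : ℝ) < (L' j : ℝ) ∨ (U' j : ℝ) < (L' i : ℝ)
    rcases hdis i hi j hj hij with h1 | h1
    · left
      exact_mod_cast cD i hi j hj h1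
    · right
      exact_mod_cast cD j hj i hi h1
  · intro a ha b hb hab
    rw [← hn] at ha hb
    rw [hadj a ha b hb hab]
    constructor
    · rintro ⟨i, hi, h1, h2⟩
      refine ⟨i, hi, ?_, ?_⟩
      · show (L' i : ℝ) ≤ (D' a b : ℝ)
        exact_mod_cast (cL i hi a ha b hb).2 h1
      · show (D' a b : ℝ) ≤ (U' i : ℝ)
        exact_mod_cast (cU i hi a ha b hb).2 h2
    · rintro ⟨i, hi, h1, h2⟩
      have h1' : (L' i : ℝ) ≤ (D' a b : ℝ) := h1
      have h2' : (D' a b : ℝ) ≤ (U' i : ℝ) := h2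
      refine ⟨i, hi, (cL i hi a ha b hb).1 ?_, (cU i hi a ha b hb).1 ?_⟩
      · exact_mod_cast h1'
      · exact_mod_cast h2'
  · intro i
    constructor
    · rw [hL']
      by_cases h : i < k
      · simp only [h, dif_pos]
        exact hb _
      · simp only [h, dif_neg, not_false_eq_true]
        exact Nat.zero_le _
    · rw [hU']
      by_cases h : i < k
      · simp only [h, dif_pos]
        exact hb _
      · simp only [h, dif_neg, not_false_eq_true]
        exact Nat.zero_le _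
  · intro a b
    rw [hD']
    by_cases h : a < n ∧ b < n
    · simp only [h, dif_pos, and_self]
      exact hb _
    · simp only [h, dif_neg, not_false_eq_true]
      exact Nat.zero_le _

end Pool.Agent.H314.PM.NatInt
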